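import Pool.Agent.LCI.Stmts

/-!
# Row LAM of squad LCI
-/

namespace Pool.Agent.LCI.H7

open Pool.Agent.LCI
open scoped BigOperators

theorem lam : LamStmt := by
  classical
  intro r s
  set p : (Fin r → ℤ) → Polynomial ℤ :=
    fun u => ∑ i : Fin r, Polynomial.C (u i) * Polynomial.X ^ (i : ℕ) with hpdef
  have hp : ∀ u, u ≠ 0 → p u ≠ 0 := by
    intro u hu h0
    apply hu
    funext i
    have h1 := congrArg (fun q => Polynomial.coeff q (i : ℕ)) h0
    simp only [hpdef, Polynomial.finset_sum_coeff, Polynomial.coeff_C_mul,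
      Polynomial.coeff_X_pow, Polynomial.coeff_zero] at h1
    rw [Finset.sum_eq_single i] at h1
    · simpa using h1
    · intro j _ hj
      rw [if_neg, mul_zero]
      intro hij
      exact hj (Fin.ext hij.symm)
    · intro hi
      exact absurd (Finset.mem_univ i) hi
  have hP : (∏ q ∈ (s ×ˢ s).filter (fun q => q.1 ≠ q.2), p (q.1 - q.2)) ≠ 0 := by
    rw [Finset.prod_ne_zero_iff]
    intro q hq
    rw [Finset.mem_filter] at hq
    exact hp _ (sub_ne_zero.2 hq.2)
  obtain ⟨N, hN⟩ : ∃ N : ℤ,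
      (∏ q ∈ (s ×ˢ s).filter (fun q => q.1 ≠ q.2), p (q.1 - q.2)).eval N ≠ 0 := by
    by_contra hcon
    push Not at hcon
    exact hP (Polynomial.funext (fun x => by rw [hcon x, Polynomial.eval_zero]))
  refine ⟨fun i => N ^ (i : ℕ), ?_⟩
  intro u hu v hv huv
  by_contra hne
  apply hN
  rw [Polynomial.eval_prod]
  apply Finset.prod_eq_zero (i := (u, v))
  · rw [Finset.mem_filter, Finset.mem_product]
    exact ⟨⟨hu, hv⟩, hne⟩
  · have h2 : (∑ i : Fin r, N ^ (i : ℕ) * u i) = ∑ i : Fin r, N ^ (i : ℕ) * v i := huv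
    simp only [hpdef, Polynomial.eval_finset_sum, Polynomial.eval_mul, Polynomial.eval_C,
      Polynomial.eval_pow, Polynomial.eval_X, Pi.sub_apply]
    rw [← sub_eq_zero, ← Finset.sum_sub_distrib] at h2
    rw [← h2]
    apply Finset.sum_congr rfl
    intro i _
    ring

end Pool.Agent.LCI.H7
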