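import Pool.Agent.LCI.Stmts

/-!
# Row LIE of squad LCI
-/

namespace Pool.Agent.LCI.H7

open Pool.Agent.LCI
open scoped BigOperators

/-- the operator `d/dX - cd D` -/
noncomputable def lieT {k K : Type} [Field k] [Field K] [Algebra k K] (D : Derivation k K K) :
    PowerSeries K →+ PowerSeries K where
  toFun P := PowerSeries.derivative K P - cd D P
  map_zero' := by
    have : cd D (0 : PowerSeries K) = 0 := by
      ext j
      simp [cd]
    rw [this, map_zero, sub_zero]
  map_add' P Q := by
    have : cd D (P + Q) = cd D P + cd D Q := by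
      ext j
      simp [cd]
    rw [this, map_add]
    ring

theorem lieT_apply {k K : Type} [Field k] [Field K] [Algebra k K] (D : Derivation k K K)
    (P : PowerSeries K) : lieT D P = PowerSeries.derivative K P - cd D P := rfl

theorem lieT_mul (h2 : CdrStmt) {k K : Type} [Field k] [Field K] [Algebra k K]
    (D : Derivation k K K) (P Q : PowerSeries K) :
    lieT D (P * Q) = P * lieT D Q + Q * lieT D P := by
  rw [lieT_apply, lieT_apply, lieT_apply, (h2 k K D).2.1, Derivation.leibniz]
  simp only [smul_eq_mul]
  ring

theorem lieT_C (h2 : CdrStmt) {k K : Type} [Field k] [Field K] [Algebra k K]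
    (D : Derivation k K K) (a : K) :
    lieT D (PowerSeries.C a) = - PowerSeries.C (D a) := by
  rw [lieT_apply, (h2 k K D).2.2.2.2, PowerSeries.derivative_C, zero_sub]

theorem lieT_pow (h2 : CdrStmt) {k K : Type} [Field k] [Field K] [Algebra k K]
    (D : Derivation k K K) (J c : PowerSeries K) (hJ : lieT D J = c * J) (l : ℕ) :
    lieT D (J ^ l) = (l : PowerSeries K) * c * J ^ l := by
  induction l with
  | zero =>
    have h1 : lieT D (1 : PowerSeries K) = 0 := by
      have := lieT_C h2 D (1 : K)
      rw [map_one, Derivation.map_one_eq_zero, map_zero, neg_zero] at this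
      exact this
    rw [pow_zero, h1]; simp
  | succ l ih =>
    rw [pow_succ, lieT_mul h2, ih, hJ]
    push_cast
    ring

theorem lie (h1 : PsiStmt) (h2 : CdrStmt) (h3 : DtmStmt) (h4 : MdxStmt) : LieStmt := by
  intro k R K _ _ _ _ _ _ _ _ _ _ n F l g D h hg hDR hcan
  classical
  set J : PowerSeries K := F.jacP (fun i => psi D (F.x i)) with hJdef
  -- T J = C (div D) * J
  have hTJ : lieT D J = PowerSeries.C (F.div D) * J := by
    have := h3 (PowerSeries K) n (lieT D)
      (Matrix.of fun i j => cd (F.d i) (psi D (F.x j)))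
      (Matrix.of fun i m => PowerSeries.C (F.d i (D (F.x m))))
      (fun a b => lieT_mul h2 D a b)
      (by
        intro i j
        rw [Matrix.of_apply, lieT_apply, h4 k K n F D i j, Matrix.mul_apply]
        rfl)
    have e : Matrix.trace (Matrix.of fun i m : Fin n =>
        (PowerSeries.C (F.d i (D (F.x m))) : PowerSeries K)) = PowerSeries.C (F.div D) := by
      unfold Matrix.trace Frame.div
      rw [map_sum]
      rfl
    rw [e] at this
    exact this
  -- T (psi g) = 0
  have hTg : lieT D (psi D g) = 0 := by
    rw [lieT_apply, (h1 k K D).2.2.2, (h1 k K D).2.2.1, sub_self]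
  set V : PowerSeries K := PowerSeries.C g⁻¹ * (psi D g * J ^ l) with hV
  have hTV : lieT D V = PowerSeries.C (algebraMap R K h) * V := by
    have e1 : lieT D (psi D g * J ^ l) =
        (l : PowerSeries K) * PowerSeries.C (F.div D) * (psi D g * J ^ l) := by
      rw [lieT_mul h2, lieT_pow h2 D J _ hTJ, hTg]
      ring
    have e2 : D g⁻¹ = - (g⁻¹ * g⁻¹ * D g) := by
      have h0 : D (g * g⁻¹) = 0 := by
        rw [mul_inv_cancel₀ hg, Derivation.map_one_eq_zero]
      rw [Derivation.leibniz] at h0
      simp only [smul_eq_mul] at h0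
      have h0' : g * D g⁻¹ = - (g⁻¹ * D g) := by linear_combination h0
      have : D g⁻¹ = g⁻¹ * (g * D g⁻¹) := by rw [← mul_assoc, inv_mul_cancel₀ hg, one_mul]
      rw [this, h0']
      ring
    have e3 : algebraMap R K h = g⁻¹ * D g + l * F.div D := by
      have : algebraMap R K h = g⁻¹ * (algebraMap R K h * g) := by
        rw [mul_comm (algebraMap R K h) g, ← mul_assoc, inv_mul_cancel₀ hg, one_mul]
      rw [this, ← hcan, mul_add]
      congr 1
      rw [show (l : K) * g * F.div D = g * (l * F.div D) by ring, ← mul_assoc,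
        inv_mul_cancel₀ hg, one_mul]
    rw [hV, lieT_mul h2, e1, lieT_C h2, e2, e3]
    simp only [map_neg, map_add, map_mul, map_natCast]
    ring
  clear_value V
  -- the coefficients
  have hco : ∀ j : ℕ, ((j : K) + 1) * PowerSeries.coeff (j + 1) V =
      D (PowerSeries.coeff j V) + algebraMap R K h * PowerSeries.coeff j V := by
    intro j
    have e1 := congrArg (PowerSeries.coeff j) hTV
    rw [lieT_apply, map_sub, PowerSeries.coeff_derivative, PowerSeries.coeff_C_mul] at e1
    have e2 : PowerSeries.coeff j (cd D V) = D (PowerSeries.coeff j V) := by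
      simp [cd]
    rw [e2] at e1
    linear_combination e1
  have h0 : PowerSeries.coeff 0 V = 1 := by
    rw [PowerSeries.coeff_zero_eq_constantCoeff_apply, hV, map_mul, map_mul, map_pow,
      PowerSeries.constantCoeff_C, (h1 k K D).2.1]
    have hJ0 : PowerSeries.constantCoeff J = 1 := by
      rw [hJdef]
      unfold Frame.jacP
      rw [RingHom.map_det]
      have : (PowerSeries.constantCoeff (R := K)).mapMatrix
          (Matrix.of fun i j : Fin n => cd (F.d i) (psi D (F.x j))) = 1 := by
        ext i j
        rw [RingHom.mapMatrix_apply, Matrix.map_apply, Matrix.of_apply]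
        rw [← PowerSeries.coeff_zero_eq_constantCoeff_apply]
        have : PowerSeries.coeff 0 (cd (F.d i) (psi D (F.x j))) = F.d i (F.x j) := by
          simp [cd, psi]
        rw [this, F.dual, Matrix.one_apply]
      rw [this, Matrix.det_one]
    rw [hJ0, one_pow, mul_one, inv_mul_cancel₀ hg]
  have hin : ∀ j : ℕ, ∃ u : R, algebraMap R K u = PowerSeries.coeff j V := by
    intro j
    induction j with
    | zero => exact ⟨1, by rw [map_one, h0]⟩
    | succ j ih =>
      obtain ⟨u, hu⟩ := ih
      obtain ⟨u', hu'⟩ := hDR u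
      refine ⟨algebraMap k R ((j : k) + 1)⁻¹ * (u' + h * u), ?_⟩
      have hj : ((j : k) + 1) ≠ 0 := by exact_mod_cast Nat.succ_ne_zero j
      have e1 := hco j
      rw [← hu, hu', ← map_mul, ← map_add] at e1
      rw [map_mul, ← e1, ← IsScalarTower.algebraMap_apply, ← mul_assoc]
      have e2 : algebraMap k K ((j : k) + 1)⁻¹ * ((j : K) + 1) = 1 := by
        have : ((j : K) + 1) = algebraMap k K ((j : k) + 1) := by simp
        rw [this, ← map_mul, inv_mul_cancel₀ hj, map_one]
      rw [e2, one_mul]
  choose u hu using hin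
  refine ⟨PowerSeries.mk u, ?_, ?_⟩
  · apply IsFractionRing.injective R K
    rw [← PowerSeries.coeff_zero_eq_constantCoeff_apply, PowerSeries.coeff_mk, hu 0, h0, map_one]
  · have e : PowerSeries.map (algebraMap R K) (PowerSeries.mk u) = V := by
      ext j
      rw [PowerSeries.coeff_map, PowerSeries.coeff_mk, hu j]
    rw [e, hV, ← mul_assoc, ← map_mul, mul_inv_cancel₀ hg, map_one, one_mul]

end Pool.Agent.LCI.H7
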